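import Pool.Agent.P.MP_9167e9_an.StG

/-! The module TWIST: the twisted norm bound in the model. -/

noncomputable section
open scoped Classical

namespace Pool.Agent.P.MP_9167e9_an

namespace TwistP

theorem FB_nonneg {Z : Type} {X : Z → Z → ℂ} {Λ : ℝ} (h : FB X Λ) (z : Z) : 0 ≤ Λ := by
  have := h {z} {z} (fun _ => 1) (fun _ => 1)
  simp only [nsq, Finset.sum_singleton, norm_one, one_pow, Real.sqrt_one, mul_one] at this
  exact (norm_nonneg _).trans this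

theorem FB_mono {Z : Type} {X : Z → Z → ℂ} {Λ Λ' : ℝ} (h : FB X Λ) (hl : Λ ≤ Λ') : FB X Λ' :=
  fun s t ξ ζ => (h s t ξ ζ).trans (by gcongr)

theorem FB_add {Z : Type} {X X' : Z → Z → ℂ} {Λ Λ' : ℝ} (h : FB X Λ) (h' : FB X' Λ') :
    FB (fun w w' => X w w' + X' w w') (Λ + Λ') := by
  intro s t ξ ζ
  have e : ∑ w ∈ s, ∑ w' ∈ t, ξ w * (X w w' + X' w w') * ζ w' =
      ∑ w ∈ s, ∑ w' ∈ t, ξ w * X w w' * ζ w' + ∑ w ∈ s, ∑ w' ∈ t, ξ w * X' w w' * ζ w' := by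
    simp only [mul_add, add_mul, Finset.sum_add_distrib]
  rw [e, add_mul, add_mul]
  exact (norm_add_le _ _).trans (add_le_add (h s t ξ ζ) (h' s t ξ ζ))

theorem FB_diag {Z : Type} {X : Z → Z → ℂ} {Λ : ℝ} (h : FB X Λ) (a b : Z → ℂ)
    (ha : ∀ w, ‖a w‖ = 1) (hb : ∀ w, ‖b w‖ = 1) : FB (fun w w' => a w * X w w' * b w') Λ := by
  intro s t ξ ζ
  have := h s t (fun w => ξ w * a w) (fun w => b w * ζ w)
  simp only [nsq, norm_mul, ha, hb, mul_one, one_mul] at this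
  simp only [nsq]
  refine le_of_eq_of_le (congrArg _ ?_) this
  refine Finset.sum_congr rfl fun w _ => Finset.sum_congr rfl fun w' _ => ?_
  ring

theorem kr_cl {Gen Z : Type} (α : FreeGroup Gen →* Equiv.Perm Z) {y : MonoidAlgebra ℂ (FreeGroup Gen)}
    {R : ℕ} (hy : ∀ f ∈ y.coeff.support, nr f ≤ R) (w w' : Z) (h : kr α y w w' ≠ 0) :
    Cl α R w w' := by
  obtain ⟨f, hf, h1⟩ := Finset.exists_ne_zero_of_sum_ne_zero h
  have h2 : α f w' = w := by
    by_contra hn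
    exact h1 (if_neg hn)
  refine ⟨f⁻¹, ?_, ?_⟩
  · have := hy f hf
    unfold nr at this ⊢
    rwa [FreeGroup.norm_inv_eq]
  · rw [map_inv, ← h2]
    simp

theorem cube_le (l : ℕ) (hl : 11 ≤ l) : (l + 1) ^ 3 ≤ 2 ^ l := by
  induction l, hl using Nat.le_induction with
  | base => norm_num
  | succ l hl ih =>
    have : (l + 1 + 1) ^ 3 ≤ 2 * (l + 1) ^ 3 := by
      obtain ⟨m, rfl⟩ := Nat.exists_eq_add_of_le hl
      ring_nf
      nlinarith [Nat.zero_le m, Nat.zero_le (m ^ 2), Nat.zero_le (m ^ 3)]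
    rw [pow_succ 2]
    omega

theorem two_pow_le (m : ℕ) : (2 : ℝ) ^ m ≤ Real.exp m := by
  rw [← Real.exp_one_pow]
  exact pow_le_pow_left₀ (by norm_num) (by linarith [Real.add_one_le_exp 1]) m

theorem nat_bound (j R n : ℕ) (hj : 2 * j + 1 ≤ R) (hR : 2 ^ (301 * (n + 1) ^ 2 + 11) ≤ R) :
    ∃ m : ℕ, ((2 * j + 1) * (R ^ 4 + 1) * (R ^ 18 + 1)) ^ (2 * Nat.log 2 (R ^ 4) + 6) ≤ 2 ^ m ∧
      (m + 12) * (n + 1) ^ 2 ≤ R := by
  have R0 : R ≠ 0 := by omega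
  have l1 : 301 * (n + 1) ^ 2 + 11 ≤ Nat.log 2 R := (Nat.le_log_iff_pow_le (by norm_num) R0).2 hR
  set l := Nat.log 2 R
  have l2 : R < 2 ^ (l + 1) := Nat.lt_pow_succ_log_self (by norm_num) R
  have l3 : 2 ^ l ≤ R := Nat.pow_log_le_self 2 R0
  have l4 : Nat.log 2 (R ^ 4) < 4 * (l + 1) := by
    refine Nat.log_lt_of_lt_pow (pow_ne_zero _ R0) ?_
    rw [mul_comm, pow_mul]
    exact Nat.pow_lt_pow_left l2 (by norm_num)
  have b1 : R ^ 4 + 1 ≤ (2 ^ (l + 1)) ^ 4 := Nat.pow_lt_pow_left l2 (by norm_num)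
  have b2 : R ^ 18 + 1 ≤ (2 ^ (l + 1)) ^ 18 := Nat.pow_lt_pow_left l2 (by norm_num)
  have b3 : (2 * j + 1) * (R ^ 4 + 1) * (R ^ 18 + 1) ≤ (2 ^ (l + 1)) ^ 23 :=
    calc _ ≤ 2 ^ (l + 1) * (2 ^ (l + 1)) ^ 4 * (2 ^ (l + 1)) ^ 18 := by gcongr; omega
      _ = _ := by ring
  refine ⟨(l + 1) * 23 * (12 * (l + 1)), ?_, ?_⟩
  · rw [pow_mul 2 ((l + 1) * 23), pow_mul 2 (l + 1)]
    exact (Nat.pow_le_pow_left b3 _).trans (Nat.pow_le_pow_right (by positivity) (by omega))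
  · have c := cube_le l (by omega)
    have : ((l + 1) * 23 * (12 * (l + 1)) + 12) ≤ 301 * (l + 1) ^ 2 := by nlinarith
    calc _ ≤ 301 * (l + 1) ^ 2 * (n + 1) ^ 2 := by gcongr
      _ = (l + 1) ^ 2 * (301 * (n + 1) ^ 2) := by ring
      _ ≤ (l + 1) ^ 2 * (l + 1) := by gcongr; omega
      _ = (l + 1) ^ 3 := by ring
      _ ≤ R := c.trans l3

theorem total (j R n : ℕ) (hj : 2 * j + 1 ≤ R) (hR : 2 ^ (301 * (n + 1) ^ 2 + 11) ≤ R) :
    (2 : ℝ) ^ (R / (4 * (n + 1) ^ 2) + 1 + 1) +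
      ((2 * j + 1) * ((R ^ 4 : ℕ) + 1) * ((R : ℝ) ^ 18 + 1)) ^ (2 * Nat.log 2 (R ^ 4) + 6) ≤
      Real.exp (R / (n + 1) ^ 2) := by
  obtain ⟨m, m1, m2⟩ := nat_bound j R n hj hR
  have m3 : ((2 * j + 1) * ((R ^ 4 : ℕ) + 1) * ((R : ℝ) ^ 18 + 1)) ^ (2 * Nat.log 2 (R ^ 4) + 6) ≤
      (2 : ℝ) ^ m := by exact_mod_cast m1
  have p : (0 : ℝ) < (n + 1) ^ 2 := by positivity
  have m4 : (m : ℝ) + 12 ≤ R / (n + 1) ^ 2 := by
    rw [le_div_iff₀ p]
    exact_mod_cast m2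
  have m5 : ((R / (4 * (n + 1) ^ 2) : ℕ) : ℝ) ≤ R / (n + 1) ^ 2 / 4 := by
    refine Nat.cast_div_le.trans (le_of_eq ?_)
    push_cast
    field_simp
  set x : ℝ := R / (n + 1) ^ 2
  have m0 : (0 : ℝ) ≤ m := Nat.cast_nonneg m
  have e1 := two_pow_le (R / (4 * (n + 1) ^ 2) + 1 + 1)
  have e2 := two_pow_le m
  have e3 : Real.exp ((R / (4 * (n + 1) ^ 2) + 1 + 1 : ℕ) : ℝ) ≤ Real.exp (x - 1) := by
    refine Real.exp_le_exp.2 ?_
    rw [Nat.cast_add, Nat.cast_add]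
    norm_num
    linarith
  have e4 : Real.exp m ≤ Real.exp (x - 1) := Real.exp_le_exp.2 (by linarith)
  have e5 : Real.exp x = Real.exp (x - 1) * Real.exp 1 := by rw [← Real.exp_add]; ring_nf
  have e6 := Real.add_one_le_exp 1
  have e7 := Real.exp_pos (x - 1)
  nlinarith

theorem num1 {η R : ℝ} (h0 : 0 < η) (hR : 24 / η ^ 5 ≤ R) :
    R ^ 3 ≤ η * 1 * Real.exp (η / R * R ^ 2) := by
  have r0 : 0 < R := lt_of_lt_of_le (by positivity) hR
  have e : η / R * R ^ 2 = η * R := by field_simp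
  have := Real.pow_div_factorial_le_exp (η * R) (by positivity) 4
  rw [div_le_iff₀ (by positivity)] at hR
  rw [e, mul_one]
  refine le_trans ?_ (mul_le_mul_of_nonneg_left this h0.le)
  have : η * ((η * R) ^ 4 / (Nat.factorial 4 : ℕ)) = R ^ 3 * (R * η ^ 5 / 24) := by
    norm_num [Nat.factorial]
    ring
  rw [this]
  exact le_mul_of_one_le_right (by positivity) (by linarith)

theorem num0 {η R : ℝ} (h0 : 0 < η) (h1 : η ≤ 1) (hR : 24 / η ^ 5 ≤ R) : 1 ≤ η * R := by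
  have r0 : 0 < R := lt_of_lt_of_le (by positivity) hR
  rw [div_le_iff₀ (by positivity)] at hR
  have : η ^ 5 ≤ η := by
    have := pow_le_pow_of_le_one h0.le h1 (show 1 ≤ 5 by norm_num)
    rwa [pow_one] at this
  nlinarith

theorem num2 {η R g N : ℝ} {m : ℕ} (h0 : 0 < η) (h1 : 1 ≤ η * R) (hR : 10 ≤ R) (hm : g = m)
    (hg : 10 * R ^ 3 ≤ g) (N0 : 0 < N) (hN : N ≤ R ^ (4 * m)) :
    5 * g ^ 3 ≤ η * (1 / (2 * N)) * Real.exp (η / R * g ^ 2) := by
  have r0 : 0 < R := by linarith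
  have g1 : R ≤ g := by nlinarith [sq_nonneg R, mul_pos r0 r0]
  have g0 : 0 < g := by linarith
  have a1 : N ≤ Real.exp (4 * g * R) := by
    refine hN.trans ?_
    rw [hm, show 4 * (m : ℝ) * R = (4 * m : ℕ) * R by push_cast; ring, Real.exp_nat_mul]
    exact pow_le_pow_left₀ r0.le (by linarith [Real.add_one_le_exp R]) _
  have a2 : g ^ 5 ≤ Real.exp (5 * g) := by
    rw [show 5 * g = (5 : ℕ) * g by norm_num, Real.exp_nat_mul]
    exact pow_le_pow_left₀ g0.le (by linarith [Real.add_one_le_exp g]) _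
  have a3 : 4 * g * R + 5 * g ≤ η / R * g ^ 2 := by
    have : 10 * R ≤ η / R * g := by
      rw [div_mul_eq_mul_div, le_div_iff₀ r0]
      calc 10 * R * R = 10 * R ^ 2 * 1 := by ring
        _ ≤ 10 * R ^ 2 * (η * R) := by gcongr
        _ = η * (10 * R ^ 3) := by ring
        _ ≤ η * g := by gcongr
    nlinarith [mul_pos g0 r0]
  have a4 : N * g ^ 5 ≤ Real.exp (η / R * g ^ 2) :=
    (mul_le_mul a1 a2 (by positivity) (by positivity)).trans
      (by rw [← Real.exp_add]; exact Real.exp_le_exp.2 a3)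
  refine le_trans ?_ (mul_le_mul_of_nonneg_left a4 (by positivity))
  have e : η * (1 / (2 * N)) * (N * g ^ 5) = 5 * g ^ 3 * (η * g * g / 10) := by
    field_simp
    ring
  rw [e]
  refine le_mul_of_one_le_right (by positivity) ?_
  have : 1 ≤ η * g := h1.trans (by gcongr)
  nlinarith

theorem num3 {d : ℝ} (hd : 1 ≤ d) (m R : ℕ) (hm : 0 < m) :
    (10 * (1 / (100 * d ^ m))) ^ (R / m + 1) * d ^ R ≤ 1 := by
  have d0 : 0 < d := by linarith
  have a : 10 * (1 / (100 * d ^ m)) ≤ (d ^ m)⁻¹ := by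
    rw [← one_div, mul_one_div, div_le_div_iff₀ (by positivity) (by positivity)]
    nlinarith [pow_pos d0 m]
  have b : d ^ R ≤ (d ^ m) ^ (R / m + 1) := by
    rw [← pow_mul]
    exact pow_le_pow_right₀ hd (Nat.lt_mul_div_succ R hm).le
  calc _ ≤ ((d ^ m)⁻¹) ^ (R / m + 1) * (d ^ m) ^ (R / m + 1) := by gcongr
    _ = 1 := by rw [← mul_pow, inv_mul_cancel₀ (by positivity), one_pow]

theorem norm_ph (x : ℝ) : ‖Complex.exp (x * Complex.I)‖ = 1 := Complex.norm_exp_ofReal_mul_I x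

end TwistP

open TwistP in
theorem pTwist (hFar : StFar) (hNear : StNear) (hAnch : StAnch) (hNG : StNearG) (hLoc : StLocn)
    (hBas : StBas) : StTwist := by
  intro P n
  set d : ℝ := 2 * Fintype.card (P.S ⊕ P.S) + 1 with hd
  have d1 : 1 ≤ d := by rw [hd]; linarith [Nat.cast_nonneg (α := ℝ) (Fintype.card (P.S ⊕ P.S))]
  set η : ℝ := 1 / (100 * d ^ (4 * (n + 1) ^ 2)) with hη
  have η0 : 0 < η := by positivity
  have η1 : η ≤ 1 / 100 :=
    one_div_le_one_div_of_le (by norm_num) (by nlinarith [one_le_pow₀ (n := 4 * (n + 1) ^ 2) d1])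
  refine ⟨max (2 ^ (301 * (n + 1) ^ 2 + 11)) ⌈24 / η ^ 5⌉₊, ?_⟩
  intro F hF c hc hR Y hY hH p hp y hy Λ hΛ φ
  have ok := hF.ok c hc
  have j1 : 1 ≤ P.j := le_trans (by norm_num) hF.j_big
  have ht := (hBas P c j1 ok).ht
  have ng := hNG P F hF c hc
  have lo := hLoc P F hF c hc
  obtain ⟨Y', A, wt, w0, wA, wF⟩ := hAnch P F hF c hc p hp
  have R1 : 24 / η ^ 5 ≤ c.R := Nat.ceil_le.1 ((le_max_right _ _).trans hR)
  have R2 : 1 ≤ η * c.R := num0 η0 (by linarith) R1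
  have R3 : (1000 : ℝ) ≤ c.R := by exact_mod_cast ok.R_big
  have R4 : 1 ≤ c.R := le_trans (by norm_num) ok.R_big
  have gL : c.g = 10000 * c.L := by unfold Cell.g Cell.L; norm_num
  have L4 : c.R ^ 4 ≤ c.L := Nat.pow_le_pow_right R4 (by norm_num)
  have L3 : c.R ^ 3 ≤ c.L := Nat.pow_le_pow_right R4 (by norm_num)
  have L1 : c.R ≤ c.L := Nat.le_self_pow (by norm_num) _
  have cl := kr_cl (am F c) (hY y hy)
  have far := hFar (P.S ⊕ P.S) (Zm F c) (c.V × ZMod 2) Y' (am F c) (dC c.τ) (HtC c.τ) (400 * c.L) p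
    A wt {z | ¬ NearP F c z} c.R (c.g ^ 2) (c.R / (4 * (n + 1) ^ 2) + 1) η (η / c.R)
    (kr (am F c) y) Λ φ (fun a b e h1 h2 => ht.add a b e (by omega)) w0 wA η0 η1 (by positivity)
    (by rw [div_mul_cancel₀ _ (by positivity)]) (num3 d1 _ _ (by positivity))
    (fun z hz => by
      rcases wF z hz with ⟨u1, ⟨a, a1, a2⟩ | u2⟩ | ⟨u1, a, a1, a2⟩
      · refine ⟨_, by positivity, u1, Or.inl ⟨a, c.R ^ 2, Nat.pow_le_pow_left (by omega) _, a2, ?_⟩⟩
        rw [a1, Nat.cast_pow]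
        exact num1 η0 R1
      · refine ⟨_, by positivity, u1, Or.inr ?_⟩
        calc (c.R : ℝ) ^ 3 = c.R ^ 3 * 1 := (mul_one _).symm
          _ ≤ c.R ^ 3 * (η * c.R) := by gcongr
          _ = η * c.R ^ 4 := by ring
          _ ≤ _ := by gcongr
      · have g0 : 0 < c.g := by omega
        refine ⟨_, by positivity, u1, Or.inl ⟨a, c.g ^ 2, le_rfl, a2, ?_⟩⟩
        rw [a1, Nat.cast_pow]
        refine num2 (m := c.g) η0 R2 (by linarith) rfl ?_ (by exact_mod_cast Fintype.card_pos) ?_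
        · exact_mod_cast (by omega : 10 * c.R ^ 3 ≤ c.g)
        · rw [ok.card]
          exact_mod_cast Nat.pow_le_pow_left (by have := ok.j_le; omega) _) cl hΛ
  have near := hNear P.j (c.V × ZMod 2) (Zm F c) (dbl c.τ) (qf F c) (Uf F c) (c.R ^ 4)
    {z | NearP F c z} (HtC c.τ) (kr (am F c) y) Λ ((c.R : ℝ) ^ 18) φ j1
    (fun x u u' h1 h2 h3 h4 => ht.inj x u u' h1 h2 (by omega))
    (fun x u h1 h2 => (ht.word x u h1 (by omega)).2) ng.inU ng.mono1 ng.mono2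
    (fun w hw w' hw' h => ng.rel w w' hw hw' (cl w w' h)) hΛ
    (by
      have : 2 * P.j ≤ c.R ^ 18 :=
        le_trans (by have := ok.j_le; omega) (Nat.le_self_pow (by norm_num) _)
      exact_mod_cast this)
    (hH y hy Λ hΛ).1 (hH y hy Λ hΛ).2
  have near' := FB_diag near
    (fun w => Complex.exp ((φ * HtC c.τ (qf F c w) (p w) : ℝ) * Complex.I))
    (fun w => Complex.exp ((φ * HtC c.τ (p w) (qf F c w) : ℝ) * Complex.I))
    (fun _ => norm_ph _) (fun _ => norm_ph _)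
  have all := FB_add far near'
  rw [← add_mul] at all
  refine FB_mono ?_ (mul_le_mul_of_nonneg_right
    (total P.j c.R n ok.j_le ((le_max_left _ _).trans hR)) (FB_nonneg hΛ (1, cls F c 1)))
  convert all using 3 with w w'
  by_cases h : NearP F c w ∧ NearP F c w'
  · rw [if_neg (by simpa using h), if_pos (by simpa using h), zero_add]
    by_cases h0 : kr (am F c) y w w' = 0
    · simp [tw, h0]
    obtain ⟨u, -, u2, u3⟩ := ng.rel w w' h.1 h.2 (cl w w' h0)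
    have d1 := lo.near w _ h.1 (hp w)
    have d2 := lo.near w' _ h.2 (hp w')
    have d3 := ht.d_le (qf F c w) u
    rw [u3, ht.d_symm] at d3
    rw [ht.d_symm] at d1
    have d4 := ht.d_tri (p w') (qf F c w') (qf F c w)
    have e1 := ht.add (p w') (qf F c w') (qf F c w) (by omega)
    have e2 := ht.add (p w') (qf F c w) (p w) (by omega)
    simp only [tw]
    rw [← e2, ← e1]
    push_cast
    simp only [mul_add, add_mul, Complex.exp_add]
    ring
  · rw [if_pos (by simpa [not_and_or] using (not_and_or.1 h)), if_neg (by simpa using h)]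
    simp

end Pool.Agent.P.MP_9167e9_an
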